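import Pool.Agent.H27.HP.T
import Pool.Agent.H44.HB.CTS

/-! Row CTP of hbp_modules: centred extremals converge to the Jerison-Lee function. -/

set_option autoImplicit false

namespace Pool.Agent.H62.HP
open MeasureTheory Set Filter Topology Pool.Agent.H80.HS Pool.Agent.H93.HQ Pool.Agent.H27.HB
open Pool.Agent.H27.HP Pool.Agent.H44.HB
open scoped ContDiff ENNReal

theorem pb {n : ℕ} (hn : 1 ≤ n) {p : ℝ} (h1 : 2 ≤ p) (h2 : p ≤ 5 / 2) :
    1 ≤ ps n p ∧ ps n p ≤ ps n (5 / 2) := by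
  have hn' : (1 : ℝ) ≤ n := by exact_mod_cast hn
  unfold ps
  have h3 : 0 < 2 * (n : ℝ) + 2 - p := by linarith
  have h4 : 0 < 2 * (n : ℝ) + 2 - 5 / 2 := by linarith
  constructor
  · rw [le_div_iff₀ h3]
    nlinarith
  · rw [div_le_div_iff₀ h3 h4]
    have h5 : 0 ≤ (2 * (n : ℝ) + 2) * (2 * (n : ℝ) + 2) * (5 / 2 - p) :=
      mul_nonneg (by positivity) (by linarith)
    nlinarith

theorem pf_CTP (hAPX : T_APX) (hEQI : T_EQI) (hREL : T_REL) (hVTQ : T_VTQ) (hLSC : T_LSC)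
    (hSUP : T_SUP) (hCL2 : T_CL2) (hOPT : T_OPT) (hSOB : T_SOB) (hCLT : T_CLT) (hZID : T_ZID) :
    T_CTP := by
  intro n hn p S T u g hp hplim hS hT hext hpos hcen
  have hn' : (1 : ℝ) ≤ n := by exact_mod_cast hn
  have hpn : ∀ k, p k < 2 * (n : ℝ) + 2 := fun k => by
    have := (hp k).2
    linarith
  have h2n : (2 : ℝ) < 2 * (n : ℝ) + 2 := by linarith
  have h5n : (5 / 2 : ℝ) < 2 * (n : ℝ) + 2 := by linarith
  have h25 : (2 : ℝ) ≤ 5 / 2 := by norm_num
  have hp1 : ∀ k, 1 < p k := fun k => by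
    have := (hp k).1
    linarith
  obtain ⟨L, M0, hL, hOP⟩ := hOPT n hn 2 (5 / 2) one_lt_two h25 h5n
  have hSb : ∀ k, L ≤ S k ∧ S k ≤ M0 := fun k => (hOP (p k) (hp k).1 (hp k).2).2 _ (hS k)
  have hkap : 0 < kap n := by
    unfold kap
    positivity
  have hεpos : ∀ k : ℕ, 0 < min (1 / ((k : ℝ) + 1)) (kap n) := fun k =>
    lt_min (by positivity) hkap
  choose φ hφN hφd hφc using fun k => hAPX n hn (p k) (S k) _ (hp1 k) (hpn k) (hεpos k) (hS k)
    (u k) (g k) (hext k) (hcen k)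
  obtain ⟨q, hq⟩ : ∃ q : ℕ → ℝ, ∀ k, q k = ps n (p k) := ⟨_, fun _ => rfl⟩
  have hq1 : ∀ k, 1 ≤ q k := fun k => by
    rw [hq]
    exact (pb hn (hp k).1 (hp k).2).1
  have hq2 : ∀ k, q k ≤ ps n (5 / 2) := fun k => by
    rw [hq]
    exact (pb hn (hp k).1 (hp k).2).2
  have hqlim : Tendsto q atTop (𝓝 (ps n 2)) := by
    refine (ps_tendsto hn hplim).congr fun k => (hq k).symm
  have hφL : ∀ k, MemLp (φ k) (ENNReal.ofReal (q k)) := fun k => by
    rw [hq]
    exact (hCLT n hn (p k) (hp1 k) (hpn k) (φ k) (hφN k).1).1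
  have huL : ∀ k, MemLp (u k) (ENNReal.ofReal (q k)) := fun k => by
    rw [hq]
    exact (hext k).1.1
  -- tails of the test functions
  have hTail : Tail q φ := by
    intro η hη
    obtain ⟨ε, M, R, hε, hE⟩ := hEQI n hn 2 (5 / 2) η one_lt_two h25 h5n hη
    refine ⟨M, R, ?_⟩
    obtain ⟨K, hK⟩ := exists_nat_one_div_lt hε
    filter_upwards [eventually_ge_atTop K] with k hk
    refine ⟨int_pow (hq1 k) (hφL k), ?_⟩
    rw [hq]
    refine hE (p k) (S k) (hp k).1 (hp k).2 (hS k) (φ k) ⟨(hφN k).1, (hφN k).2.1, ?_⟩ ?_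
    · refine (hφN k).2.2.trans ?_
      have h1 : min (1 / ((k : ℝ) + 1)) (kap n) ≤ ε := by
        refine (min_le_left _ _).trans (le_trans ?_ hK.le)
        refine one_div_le_one_div_of_le (by positivity) ?_
        have : (K : ℝ) ≤ k := by exact_mod_cast hk
        linarith
      linarith
    · intro i b
      exact (hφc k i b).trans (min_le_right _ _)
  -- convergence almost everywhere
  obtain ⟨σ₁, w, hσ₁, hw, hae₁⟩ := hREL n hn 2 (5 / 2) (max 1 (M0 + 1)) p φ one_lt_two h25 h5n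
    (fun k => ⟨(hp k).1, (hp k).2⟩) (fun k => (hφN k).1)
    (fun k => by
      rw [(hφN k).2.1]
      exact le_max_left _ _)
    (fun k => by
      refine (hφN k).2.2.trans (le_trans ?_ (le_max_right _ _))
      have h1 : min (1 / ((k : ℝ) + 1)) (kap n) ≤ 1 := by
        refine (min_le_left _ _).trans ?_
        rw [div_le_one (by positivity)]
        have : (0 : ℝ) ≤ k := by positivity
        linarith
      have := (hSb k).2
      linarith)
  obtain ⟨A', -, σ₂, hσ₂, hA₂⟩ := (isCompact_Icc (a := L) (b := M0)).tendsto_subseq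
    (x := fun k => S (σ₁ k)) (fun k => hSb (σ₁ k))
  have hpow : StrictMono fun k : ℕ => 2 ^ k := pow_right_strictMono₀ (by norm_num)
  obtain ⟨σ, hσd⟩ : ∃ σ : ℕ → ℕ, ∀ k, σ k = σ₁ (σ₂ (2 ^ k)) := ⟨_, fun _ => rfl⟩
  have hσ : StrictMono σ := by
    intro i j hij
    rw [hσd, hσd]
    exact hσ₁ (hσ₂ (hpow hij))
  have hσge : ∀ k, 2 ^ k ≤ σ k := fun k => by
    rw [hσd]
    exact (hσ₂.le_apply).trans hσ₁.le_apply
  have hSlim : Tendsto (fun k => S (σ k)) atTop (𝓝 A') := by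
    have h1 := hA₂.comp hpow.tendsto_atTop
    refine h1.congr fun k => ?_
    rw [hσd]
    rfl
  have haeφ : ∀ᵐ z, Tendsto (fun k => φ (σ k) z) atTop (𝓝 (w z)) := by
    filter_upwards [hae₁] with z hz
    have h1 := hz.comp ((hσ₂.comp hpow).tendsto_atTop)
    refine h1.congr fun k => ?_
    rw [hσd]
    rfl
  have hεσ : ∀ k, min (1 / ((σ k : ℝ) + 1)) (kap n) ≤ (1 / 2) ^ k := by
    intro k
    refine (min_le_left _ _).trans ?_
    rw [one_div_pow]
    refine one_div_le_one_div_of_le (by positivity) ?_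
    have h1 : ((2 ^ k : ℕ) : ℝ) ≤ σ k := by exact_mod_cast hσge k
    push_cast at h1
    linarith
  have hgeo : Tendsto (fun k : ℕ => (1 / 2 : ℝ) ^ k) atTop (𝓝 0) :=
    tendsto_pow_atTop_nhds_zero_of_lt_one (by norm_num) (by norm_num)
  have hdle : ∀ k, ∫ z, |φ (σ k) z - u (σ k) z| ^ q (σ k) ≤ (1 / 2) ^ k := by
    intro k
    rw [hq]
    exact (hφd (σ k)).trans (hεσ k)
  have haed := diff_ae (fun k => q (σ k)) (ps n (5 / 2)) (fun k => hq1 _) (fun k => hq2 _)
    (fun k z => φ (σ k) z - u (σ k) z) (fun k => (hφL _).sub (huL _)) hdle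
  have haeu : ∀ᵐ z, Tendsto (fun k => u (σ k) z) atTop (𝓝 (w z)) := by
    filter_upwards [haeφ, haed] with z h1 h2
    have h3 := h1.sub h2
    rw [sub_zero] at h3
    refine h3.congr fun k => ?_
    ring
  have hwpos : ∀ᵐ z, 0 ≤ w z := by
    have h1 : ∀ᵐ z, ∀ k, 0 ≤ u k z := ae_all_iff.2 hpos
    filter_upwards [haeu, h1] with z h2 h3
    exact ge_of_tendsto' h2 fun k => h3 _
  -- Vitali
  have hTσ := tail_sub hTail hσ
  obtain ⟨-, hV1, hV2, -⟩ := hVTQ n (fun k => q (σ k)) (ps n 2) (fun k => φ (σ k)) w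
    (pb hn le_rfl h25).1 (fun k => hq1 _) (hqlim.comp hσ.tendsto_atTop)
    (fun k => (hφL (σ k)).1) hw.aestronglyMeasurable haeφ hTσ
  have hms : ms (ps n 2) w = 1 := by
    refine tendsto_nhds_unique hV1 ?_
    refine tendsto_const_nhds.congr fun k => ?_
    rw [hq]
    exact ((hφN (σ k)).2.1).symm
  have hwc : Cen (fun z => |w z| ^ ps n 2) := by
    intro i b
    obtain ⟨hz1, hz2, -⟩ := hZID n hn
    have h1 := hV2 (rz i b) (hz1 i b).continuous.measurable ⟨1, hz2 i b⟩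
    refine tendsto_nhds_unique h1 ?_
    rw [tendsto_zero_iff_abs_tendsto_zero]
    refine squeeze_zero (fun k => abs_nonneg _) (fun k => ?_) hgeo
    show |∫ z, |φ (σ k) z| ^ q (σ k) * rz i b z| ≤ _
    rw [hq]
    exact (hφc (σ k) i b).trans (hεσ k)
  -- the energy
  obtain ⟨g', hg1, hg2⟩ := hLSC n hn (fun k => p (σ k))
    (fun k => S (σ k) + min (1 / ((σ k : ℝ) + 1)) (kap n)) A' (max 1 (M0 + 1))
    (fun k => φ (σ k)) w (fun k => ⟨hp1 _, hpn _⟩) (hplim.comp hσ.tendsto_atTop)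
    (by
      have h1 : Tendsto (fun k => min (1 / ((σ k : ℝ) + 1)) (kap n)) atTop (𝓝 0) :=
        squeeze_zero (fun k => (hεpos (σ k)).le) hεσ hgeo
      have h2 := hSlim.add h1
      rwa [add_zero] at h2)
    (fun k => (hφN _).1) hw.aestronglyMeasurable haeφ
    (fun k => by
      rw [(hφN (σ k)).2.1]
      exact le_max_left _ _)
    (fun k => (hφN _).2.2)
  have hA'T : A' ≤ T := by
    refine le_of_forall_pos_le_add fun ε hε => ?_
    have h1 := hSUP n hn (fun k => p (σ k)) (fun k => S (σ k)) 2 T (fun k => ⟨hp1 _, hpn _⟩)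
      one_lt_two h2n (hplim.comp hσ.tendsto_atTop) (fun k => hS _) hT ε hε
    exact le_of_tendsto hSlim h1
  have hTg : T ≤ en 2 g' := by
    have h1 := hSOB n hn 2 T one_lt_two h2n hT w g' hg1
    rwa [hms, Real.one_rpow, mul_one] at h1
  have hen : en 2 g' = T := le_antisymm (hg2.trans hA'T) hTg
  have hA'eq : A' = T := le_antisymm hA'T (hTg.trans hg2)
  have hwub : w =ᵐ[volume] ub n := hCL2 n hn T hT w g' ⟨hg1, hms, hen⟩ hwpos hwc
  refine ⟨σ, hσ, ?_, ?_, ?_⟩
  · filter_upwards [haeu, hwub] with z h1 h2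
    rwa [h2] at h1
  · have h1 := tail_transfer (fun k => q (σ k)) (ps n (5 / 2)) (fun k => hq1 _) (fun k => hq2 _)
      (fun k => φ (σ k)) (fun k => u (σ k)) (fun k => (hφN (σ k)).1.1.continuous)
      (fun k => hφL _) (fun k => huL _) hTσ
      (squeeze_zero (fun k => integral_nonneg fun z => Real.rpow_nonneg (abs_nonneg _) _)
        hdle hgeo)
    have h2 : (fun k => q (σ k)) = fun k => ps n (p (σ k)) := funext fun k => hq _
    rwa [h2] at h1
  · rw [← hA'eq]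
    exact hSlim

end Pool.Agent.H62.HP
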