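import Pool.Agent.H27.HP.T
import Pool.Agent.H35.HBE.UTL

/-! Row UTP of hbp_modules: uniformity in the exponent for `p ≥ 2`. -/

set_option autoImplicit false

namespace Pool.Agent.H62.HP
open MeasureTheory Set Filter Topology Pool.Agent.H80.HS Pool.Agent.H93.HQ Pool.Agent.H27.HB
open Pool.Agent.H27.HP Pool.Agent.H35.HBE Pool.Agent.H35.HBE.UTL
open scoped ContDiff ENNReal

namespace UTPx

variable {n : ℕ}

theorem ps_diff (hn : 1 ≤ n) {p : ℝ} (hp : p ≤ 17 / 8) :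
    ps n p - ps n 2 = (2 * (n : ℝ) + 2) ^ 2 * (p - 2) / (2 * n * (2 * n + 2 - p)) := by
  have hn1 : (1 : ℝ) ≤ n := by exact_mod_cast hn
  have h3 : (2 * (n : ℝ) + 2 - p) ≠ 0 := by linarith
  have h4 : (n : ℝ) ≠ 0 := by linarith
  have h5 : (2 * (n : ℝ) + 2 - 2) = 2 * n := by ring
  unfold ps
  rw [h5, div_sub_div _ _ h3 (by positivity), div_eq_div_iff (by positivity) (by positivity)]
  ring

theorem ps_mono (hn : 1 ≤ n) {p q : ℝ} (hq : q ≤ 17 / 8) (hpq : p ≤ q) : ps n p ≤ ps n q := by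
  have hn1 : (1 : ℝ) ≤ n := by exact_mod_cast hn
  unfold ps
  rw [div_le_div_iff₀ (by linarith) (by linarith)]
  have h5 : 0 ≤ (2 * (n : ℝ) + 2) * (2 * (n : ℝ) + 2) * (q - p) :=
    mul_nonneg (by positivity) (by linarith)
  nlinarith

theorem ps_diff_le (hn : 1 ≤ n) {p : ℝ} (hp2 : 2 ≤ p) (hp : p ≤ 17 / 8) :
    ps n p - ps n 2 ≤ 5 * (p - 2) := by
  have hn1 : (1 : ℝ) ≤ n := by exact_mod_cast hn
  rw [ps_diff hn hp]
  have h1 : 0 < 2 * (n : ℝ) + 2 - p := by linarith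
  have h2 : 0 ≤ p - 2 := by linarith
  rw [div_le_iff₀ (by positivity)]
  have h3 : (2 * (n : ℝ) + 2) ^ 2 ≤ 5 * (2 * n * (2 * n + 2 - p)) := by nlinarith
  nlinarith [mul_le_mul_of_nonneg_right h3 h2]

/-- The size of the gradient. -/
theorem grad_le' (hGRU : T_GRU) (hn : 1 ≤ n) {p : ℝ} (hp1 : 2 ≤ p) (hp2 : p ≤ 3)
    (z : H n) : ‖hg (u0 n) z‖ ^ p ≤ (2 * n) ^ (3 : ℝ) * ww z ^ (-((2 * (n : ℝ) + 1) / 2)) := by
  have hn1 : (1 : ℝ) ≤ n := by exact_mod_cast hn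
  have hw := ww_pos z
  have hw1 := ww_ge z
  have h1 : mz z ≤ ww z ^ (1 / 4 : ℝ) := by
    have h2 : mz z ^ 4 ≤ ww z := by
      have : mz z ^ 4 = (mz z ^ 2) ^ 2 := by ring
      rw [this, mz_sq]
      have := sq_nonneg' z
      unfold ww
      nlinarith [sq_nonneg z.2.2]
    have h3 : mz z = (mz z ^ 4) ^ (1 / 4 : ℝ) := by
      rw [← Real.rpow_natCast, ← Real.rpow_mul (mz_nonneg z)]
      norm_num
    rw [h3]
    exact Real.rpow_le_rpow (pow_nonneg (mz_nonneg z) 4) h2 (by norm_num)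
  have h4 : ‖hg (u0 n) z‖ ≤ 2 * n * ww z ^ (-((2 * (n : ℝ) + 1) / 4)) := by
    rw [(hGRU n z).2]
    calc 2 * (n : ℝ) * mz z * ww z ^ (-((n : ℝ) + 1) / 2)
        ≤ 2 * (n : ℝ) * ww z ^ (1 / 4 : ℝ) * ww z ^ (-((n : ℝ) + 1) / 2) := by
          gcongr
      _ = 2 * n * ww z ^ (-((2 * (n : ℝ) + 1) / 4)) := by
          rw [mul_assoc, ← Real.rpow_add hw]
          congr 2
          ring
  have hp0 : 0 < p := by linarith
  calc ‖hg (u0 n) z‖ ^ p ≤ (2 * n * ww z ^ (-((2 * (n : ℝ) + 1) / 4))) ^ p :=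
        Real.rpow_le_rpow (norm_nonneg _) h4 hp0.le
    _ = (2 * n) ^ p * ww z ^ (-((2 * (n : ℝ) + 1) / 4) * p) := by
        rw [Real.mul_rpow (by positivity) (by positivity), ← Real.rpow_mul hw.le]
    _ ≤ (2 * n) ^ (3 : ℝ) * ww z ^ (-((2 * (n : ℝ) + 1) / 2)) := by
        refine mul_le_mul ?_ ?_ (by positivity) (by positivity)
        · exact Real.rpow_le_rpow_of_exponent_le (by linarith) hp2
        · refine Real.rpow_le_rpow_of_exponent_le hw1 ?_
          nlinarith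

end UTPx

open UTPx

/-- UTP -/
theorem pf_UTP (hGRU : T_GRU) (hJJI : T_JJI) : T_UTP := by
  intro n hn
  have hn1 : (1 : ℝ) ≤ n := by exact_mod_cast hn
  have hn0 : (0 : ℝ) < n := by linarith
  have hQ := n_ps2 hn
  have hM : ps n 2 ≤ ps n (17 / 8) := ps_mono hn le_rfl (by norm_num)
  have hi2 := int_abs hGRU hJJI hn (q := ps n 2) (by linarith)
  have hiQ := int_abs hGRU hJJI hn (q := ps n (17 / 8)) (by linarith)
  have hm0 : 0 < ms (ps n (17 / 8)) (u0 n) := by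
    unfold ms
    rw [integral_pos_iff_support_of_nonneg (fun z => by positivity) hiQ]
    have hsupp : Function.support (fun z : H n => |u0 n z| ^ ps n (17 / 8)) = univ := by
      ext z
      simp only [Function.mem_support, mem_univ, iff_true]
      exact (Real.rpow_pos_of_pos (abs_pos.2 (u0_pos z).ne') _).ne'
    rw [hsupp]
    exact Measure.measure_univ_pos.2 (NeZero.ne _)
  have hir : Integrable (fun z : H n => u0 n z ^ (ps n 2 - 1 / (2 * n))) := by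
    refine int_u0 hJJI hn ?_
    have : (n : ℝ) * (1 / (2 * n)) = 1 / 2 := by field_simp
    nlinarith
  have hig : Integrable (fun z : H n =>
      (2 * (n : ℝ)) ^ (3 : ℝ) * ww z ^ (-((2 * (n : ℝ) + 1) / 2))) :=
    (int_ww hJJI hn (by linarith)).const_mul _
  have hms1 : 0 ≤ ms (ps n 2) (u0 n) := integral_nonneg fun z => by positivity
  have hI1 : 0 ≤ ∫ z : H n, u0 n z ^ (ps n 2 - 1 / (2 * n)) :=
    integral_nonneg fun z => Real.rpow_nonneg (u0_pos z).le _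
  have hI2 : 0 ≤ ∫ z : H n, (2 * (n : ℝ)) ^ (3 : ℝ) * ww z ^ (-((2 * (n : ℝ) + 1) / 2)) :=
    integral_nonneg fun z => by
      have := ww_pos z
      positivity
  obtain ⟨A, hA⟩ : ∃ A : ℝ, A = (ms (ps n (17 / 8)) (u0 n))⁻¹ + ms (ps n 2) (u0 n) +
    (∫ z : H n, (2 * (n : ℝ)) ^ (3 : ℝ) * ww z ^ (-((2 * (n : ℝ) + 1) / 2))) +
    10 * n * ∫ z : H n, u0 n z ^ (ps n 2 - 1 / (2 * n)) := ⟨_, rfl⟩
  have hinv : 0 < (ms (ps n (17 / 8)) (u0 n))⁻¹ := inv_pos.2 hm0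
  have hI3 : 0 ≤ 10 * (n : ℝ) * ∫ z : H n, u0 n z ^ (ps n 2 - 1 / (2 * n)) :=
    mul_nonneg (by linarith) hI1
  have hA0 : 0 < A := by linarith
  refine ⟨A, hA0, ?_⟩
  intro p hp1 hp2
  have hge : ps n 2 ≤ ps n p := ps_mono hn hp2 hp1
  have hle : ps n p ≤ ps n (17 / 8) := ps_mono hn le_rfl hp2
  have hip := int_abs hGRU hJJI hn (q := ps n p) (by linarith)
  refine ⟨?_, ?_, ?_, ?_⟩
  · have h1 : ms (ps n (17 / 8)) (u0 n) ≤ ms (ps n p) (u0 n) := by
      refine integral_mono hiQ hip (fun z => ?_)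
      show |u0 n z| ^ ps n (17 / 8) ≤ |u0 n z| ^ ps n p
      rw [u0_abs_rpow, u0_abs_rpow]
      exact u0_rpow_anti z hle
    refine le_trans ?_ h1
    rw [inv_le_comm₀ hA0 hm0]
    linarith
  · have h1 : ms (ps n p) (u0 n) ≤ ms (ps n 2) (u0 n) := by
      refine integral_mono hip hi2 (fun z => ?_)
      show |u0 n z| ^ ps n p ≤ |u0 n z| ^ ps n 2
      rw [u0_abs_rpow, u0_abs_rpow]
      exact u0_rpow_anti z hge
    linarith
  · have h1 : en p (hg (u0 n)) ≤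
        ∫ z : H n, (2 * (n : ℝ)) ^ (3 : ℝ) * ww z ^ (-((2 * (n : ℝ) + 1) / 2)) := by
      refine integral_mono_of_nonneg (Eventually.of_forall fun z => ?_) hig
        (Eventually.of_forall fun z => grad_le' hGRU hn hp1 (by linarith) z)
      exact Real.rpow_nonneg (norm_nonneg _) _
    linarith
  · have ha : (0 : ℝ) < 1 / (2 * n) := by positivity
    have h1 : ∫ z : H n, |u0 n z ^ ps n p - u0 n z ^ ps n 2| ≤
        ∫ z : H n, 5 * (p - 2) * (2 * n) * u0 n z ^ (ps n 2 - 1 / (2 * n)) := by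
      refine integral_mono_of_nonneg (Eventually.of_forall fun z => abs_nonneg _)
        (hir.const_mul _) (Eventually.of_forall fun z => ?_)
      show |u0 n z ^ ps n p - u0 n z ^ ps n 2| ≤
        5 * (p - 2) * (2 * n) * u0 n z ^ (ps n 2 - 1 / (2 * n))
      rw [abs_sub_comm]
      refine (diff_le (u0_pos z) (u0_le_one z) ha hge).trans ?_
      have h2 : (1 : ℝ) / (1 / (2 * n)) = 2 * n := by field_simp
      rw [h2]
      have h3 := ps_diff_le hn hp1 hp2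
      have h5 : 0 ≤ u0 n z ^ (ps n 2 - 1 / (2 * n)) := Real.rpow_nonneg (u0_pos z).le _
      exact mul_le_mul_of_nonneg_right (mul_le_mul_of_nonneg_right h3 (by linarith)) h5
    rw [integral_const_mul] at h1
    refine h1.trans ?_
    have h6 : 0 ≤ p - 2 := by linarith
    have h7 : 10 * (n : ℝ) * (∫ z : H n, u0 n z ^ (ps n 2 - 1 / (2 * n))) ≤ A := by
      linarith
    have h8 := mul_le_mul_of_nonneg_right h7 h6
    linarith

end Pool.Agent.H62.HP
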